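import Mathlib

set_option autoImplicit false

namespace Pool.Agent.Results.MP_43980c_co.NotGroup

/-- An incidence structure: points, blocks, incidence. -/
structure IncStr where
  P : Type
  B : Type
  I : P → B → Prop

/-- `[x,y]`: the number of blocks incident with both points. -/
noncomputable def joinCard (J : IncStr) (x y : J.P) : ℕ∞ := {X : J.B | J.I x X ∧ J.I y X}.encard

/-- `[X,Y]`: the number of points incident with both blocks. -/
noncomputable def meetCard (J : IncStr) (X Y : J.B) : ℕ∞ := {x : J.P | J.I x X ∧ J.I x Y}.encard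

/-- `X ∼ₐ Y`: for every point on one of `X`, `Y` there is a point `y` on the other with `[x,y] > 1`. -/
def SimA (J : IncStr) (X Y : J.B) : Prop :=
  (∀ x, J.I x X → ∃ y, J.I y Y ∧ 1 < joinCard J x y) ∧
  (∀ x, J.I x Y → ∃ y, J.I y X ∧ 1 < joinCard J x y)

/-- A parallelism: an equivalence relation on blocks such that for every point `p` and block `X`
there is exactly one block through `p` parallel to `X`. -/
def IsParallelism (J : IncStr) (par : J.B → J.B → Prop) : Prop :=
  Equivalence par ∧ ∀ (p : J.P) (X : J.B), ∃! Y : J.B, J.I p Y ∧ par X Y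

/-- Ordinary affine planes. -/
def IsAffinePlane (A : IncStr) : Prop :=
  (∀ x y : A.P, x ≠ y → ∃! L : A.B, A.I x L ∧ A.I y L) ∧
  (∀ (p : A.P) (L : A.B), ¬ A.I p L → ∃! M : A.B, A.I p M ∧ ∀ q, ¬ (A.I q L ∧ A.I q M)) ∧
  (∃ x y z : A.P, x ≠ y ∧ y ≠ z ∧ x ≠ z ∧ ¬ ∃ L : A.B, A.I x L ∧ A.I y L ∧ A.I z L)

/-- Epimorphisms of incidence structures (onto on points, on blocks and on flags). -/
def IsEpi (J A : IncStr) (f : J.P → A.P) (g : J.B → A.B) : Prop :=
  Function.Surjective f ∧ Function.Surjective g ∧ (∀ x X, J.I x X → A.I (f x) (g X)) ∧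
  (∀ x' X', A.I x' X' → ∃ x X, f x = x' ∧ g X = X' ∧ J.I x X)

/-- Affine Hjelmslev planes `J` with parallelism `par`. -/
def IsAHPlane (J : IncStr) (par : J.B → J.B → Prop) : Prop :=
  (∀ x y : J.P, 1 ≤ joinCard J x y) ∧
  IsParallelism J par ∧
  (∀ X Y : J.B, X ≠ Y → SimA J X Y → meetCard J X Y ≠ 1) ∧
  (∃ (A : IncStr) (f : J.P → A.P) (g : J.B → A.B), IsAffinePlane A ∧ IsEpi J A f g ∧
    (∀ x y, f x = f y ↔ 1 < joinCard J x y) ∧ (∀ X Y, g X = g Y ↔ SimA J X Y))

/-- The automorphism group of an incidence structure: pairs of bijections of points and blocks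
preserving incidence in both directions. -/
def AutGroup (J : IncStr) : Subgroup (Equiv.Perm J.P × Equiv.Perm J.B) where
  carrier := {τ | ∀ x X, J.I (τ.1 x) (τ.2 X) ↔ J.I x X}
  mul_mem' := by
    intro a b ha hb x X
    have h1 := ha (b.1 x) (b.2 X)
    have h2 := hb x X
    simpa using h1.trans h2
  one_mem' := by intro x X; simp
  inv_mem' := by
    intro a ha x X
    have h1 := ha (a.1⁻¹ x) (a.2⁻¹ X)
    simpa using h1.symm

/-- The set of translations of `(J, par)`: automorphisms `τ` such that (i) there is a parallel class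
each of whose blocks is mapped to itself and (ii) `τ` is the identity or fixes no point. -/
def Translations (J : IncStr) (par : J.B → J.B → Prop) : Set (AutGroup J) :=
  {τ | (∃ X : J.B, ∀ Y, par X Y → τ.1.2 Y = Y) ∧ (τ = 1 ∨ ∀ x, τ.1.1 x ≠ x)}

/-- Dilatations: automorphisms mapping every block to a parallel block. -/
def Dilatations (J : IncStr) (par : J.B → J.B → Prop) : Set (AutGroup J) :=
  {τ | ∀ X : J.B, par X (τ.1.2 X)}

/-- Two translations, both dilatations, whose product is not a translation. -/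
def DilProductFails (J : IncStr) (par : J.B → J.B → Prop) : Prop :=
  ∃ σ τ : AutGroup J, σ ∈ Translations J par ∧ τ ∈ Translations J par ∧
    σ ∈ Dilatations J par ∧ τ ∈ Dilatations J par ∧ σ * τ ∉ Translations J par

/-- Two translations whose product is not the identity but fixes a point. -/
def FixProductFails (J : IncStr) (par : J.B → J.B → Prop) : Prop :=
  ∃ σ τ : AutGroup J, σ ∈ Translations J par ∧ τ ∈ Translations J par ∧
    σ * τ ≠ 1 ∧ ∃ x : J.P, (σ * τ).1.1 x = x

/-- The set of translations is a subgroup of the automorphism group. -/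
def TranslationsGroup (J : IncStr) (par : J.B → J.B → Prop) : Prop :=
  ∃ H : Subgroup (AutGroup J), (H : Set (AutGroup J)) = Translations J par

/-! ### The plane over `ℤ/9` -/

abbrev R := ZMod 9
abbrev K := ZMod 3

/-- the embedding `{0,1,2} → {0,3,6}` -/
def h (k : K) : R := 3 * (k.val : R)
/-- reduction mod 3 -/
def π (x : R) : K := (x.val : K)
/-- a section of the reduction -/
def s (x : K) : R := (x.val : R)

theorem π_add : ∀ a b : R, π (a + b) = π a + π b := by decide +kernel
theorem π_mul : ∀ a b : R, π (a * b) = π a * π b := by decide +kernel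
theorem π_h : ∀ k : K, π (h k) = 0 := by decide +kernel
theorem π_s : ∀ k : K, π (s k) = k := by decide +kernel
theorem π_eq : ∀ a b : R, π a = π b ↔ 3 * (a - b) = 0 := by decide +kernel
theorem h_three : ∀ k : K, h k * 3 = 0 := by decide +kernel

/-- The incidence structure: points `(x,y)`, blocks `y = m x + c` and `x = h(k) y + c`. -/
def J : IncStr where
  P := R × R
  B := (R × R) ⊕ (K × R)
  I := fun p X => match X with
    | Sum.inl (m, c) => p.2 = m * p.1 + c
    | Sum.inr (k, c) => p.1 = h k * p.2 + c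

theorem I_inl (x y m c : R) : J.I (x, y) (Sum.inl (m, c)) ↔ y = m * x + c := Iff.rfl
theorem I_inr (x y c : R) (k : K) : J.I (x, y) (Sum.inr (k, c)) ↔ x = h k * y + c := Iff.rfl

/-- The affine plane of order 3. -/
def A : IncStr where
  P := K × K
  B := (K × K) ⊕ K
  I := fun p X => match X with
    | Sum.inl (m, c) => p.2 = m * p.1 + c
    | Sum.inr c => p.1 = c

instance : DecidableEq A.P := inferInstanceAs (DecidableEq (K × K))
instance : Fintype A.P := inferInstanceAs (Fintype (K × K))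
instance : DecidableEq A.B := inferInstanceAs (DecidableEq ((K × K) ⊕ K))
instance : Fintype A.B := inferInstanceAs (Fintype ((K × K) ⊕ K))
instance (p : A.P) (X : A.B) : Decidable (A.I p X) := by
  rcases X with ⟨m, c⟩ | c
  · exact inferInstanceAs (Decidable (p.2 = m * p.1 + c))
  · exact inferInstanceAs (Decidable (p.1 = c))

theorem A_plane : IsAffinePlane A := by
  refine ⟨?_, ?_, ?_⟩
  · unfold ExistsUnique
    decide +kernel
  · unfold ExistsUnique
    decide +kernel
  · decide +kernel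

/-- the epimorphism -/
def f (p : J.P) : A.P := (π p.1, π p.2)
def g (X : J.B) : A.B := match X with
  | Sum.inl (m, c) => Sum.inl (π m, π c)
  | Sum.inr (_, c) => Sum.inr (π c)

theorem epi : IsEpi J A f g := by
  refine ⟨?_, ?_, ?_, ?_⟩
  · rintro ⟨x, y⟩
    exact ⟨(s x, s y), by show ((π (s x), π (s y)) : K × K) = (x, y); simp only [π_s]⟩
  · rintro (⟨m, c⟩ | c)
    · exact ⟨Sum.inl (s m, s c), by
        show (Sum.inl (π (s m), π (s c)) : (K × K) ⊕ K) = Sum.inl (m, c); simp only [π_s]⟩
    · exact ⟨Sum.inr (0, s c), by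
        show (Sum.inr (π (s c)) : (K × K) ⊕ K) = Sum.inr c; simp only [π_s]⟩
  · rintro ⟨x, y⟩ (⟨m, c⟩ | ⟨k, c⟩) hI
    · rw [I_inl] at hI
      show π y = π m * π x + π c
      rw [hI, π_add, π_mul]
    · rw [I_inr] at hI
      show π x = π c
      rw [hI, π_add, π_mul, π_h]; simp
  · rintro ⟨x, y⟩ (⟨m, c⟩ | c) hI
    · have hI' : y = m * x + c := hI
      refine ⟨(s x, s m * s x + s c), Sum.inl (s m, s c), ?_, ?_, rfl⟩
      · show ((π (s x), π (s m * s x + s c)) : K × K) = (x, y)
        rw [π_add, π_mul, π_s, π_s, π_s, hI']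
      · show (Sum.inl (π (s m), π (s c)) : (K × K) ⊕ K) = Sum.inl (m, c)
        simp only [π_s]
    · have hI' : x = c := hI
      refine ⟨(s x, s y), Sum.inr (0, s c), ?_, ?_, ?_⟩
      · show ((π (s x), π (s y)) : K × K) = (x, y)
        simp only [π_s]
      · show (Sum.inr (π (s c)) : (K × K) ⊕ K) = Sum.inr c
        simp only [π_s]
      · rw [I_inr, hI']
        have : h 0 = 0 := by decide
        simp [this]

theorem join_ex : ∀ dx dy : R, (∃ m : R, dy = m * dx) ∨ (∃ k : K, dx = h k * dy) := by decide +kernel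
theorem join_ex2 : ∀ dx dy : R, 3 * dx = 0 → 3 * dy = 0 → (∃ m : R, dy = m * dx) ∨ dx = 0 := by
  decide +kernel
theorem join_uniq1 : ∀ m m' dx : R, m ≠ m' → m * dx = m' * dx → 3 * dx = 0 ∧ 3 * (m * dx) = 0 := by
  decide +kernel
theorem join_uniq2 : ∀ (m : R) (k : K) (dx : R), dx = h k * (m * dx) → dx = 0 := by
  decide +kernel
theorem join_uniq3 : ∀ (k k' : K) (dy : R), k ≠ k' → h k * dy = h k' * dy →
    3 * (h k * dy) = 0 ∧ 3 * dy = 0 := by
  decide +kernel

theorem three_ne : ∀ x : R, x + 3 ≠ x := by decide +kernel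

theorem one_le_join (p q : J.P) : 1 ≤ joinCard J p q := by
  obtain ⟨x, y⟩ := p
  obtain ⟨x', y'⟩ := q
  unfold joinCard
  rw [Set.one_le_encard_iff_nonempty]
  rcases join_ex (x' - x) (y' - y) with ⟨m, hm⟩ | ⟨k, hk⟩
  · refine ⟨Sum.inl (m, y - m * x), ?_, ?_⟩
    · rw [I_inl]; ring
    · rw [I_inl]; linear_combination hm
  · refine ⟨Sum.inr (k, x - h k * y), ?_, ?_⟩
    · rw [I_inr]; ring
    · rw [I_inr]; linear_combination hk

theorem join_iff (p q : J.P) : f p = f q ↔ 1 < joinCard J p q := by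
  obtain ⟨x, y⟩ := p
  obtain ⟨x', y'⟩ := q
  unfold joinCard
  rw [Set.one_lt_encard_iff]
  have hf : f ((x, y) : R × R) = f ((x', y') : R × R) ↔ 3 * (x - x') = 0 ∧ 3 * (y - y') = 0 := by
    show ((π x, π y) : K × K) = (π x', π y') ↔ _
    rw [Prod.mk.injEq, π_eq, π_eq]
  constructor
  · intro hpq
    obtain ⟨hx, hy⟩ := hf.1 hpq
    rcases join_ex2 (x - x') (y - y') hx hy with ⟨m, hm⟩ | h0
    · refine ⟨Sum.inl (m, y - m * x), Sum.inl (m + 3, y - (m + 3) * x), ⟨?_, ?_⟩, ⟨?_, ?_⟩, ?_⟩
      · rw [I_inl]; ring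
      · rw [I_inl]; linear_combination -hm
      · rw [I_inl]; ring
      · rw [I_inl]; linear_combination -hm + hx
      · intro he
        have h1 : m = m + 3 := (Prod.mk.inj (Sum.inl.inj he)).1
        exact three_ne m h1.symm
    · refine ⟨Sum.inr (0, x), Sum.inr (1, x - h 1 * y), ⟨?_, ?_⟩, ⟨?_, ?_⟩, ?_⟩
      · rw [I_inr]; have : h 0 = 0 := by decide
        rw [this]; ring
      · rw [I_inr]; have : h 0 = 0 := by decide
        rw [this]; linear_combination -h0
      · rw [I_inr]; ring
      · rw [I_inr]; have : h 1 = 3 := by decide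
        rw [this]; linear_combination -h0 + hy
      · intro he
        have h1 : (0 : K) = 1 := (Prod.mk.inj (Sum.inr.inj he)).1
        exact absurd h1 (by decide)
  · rintro ⟨X, Y, ⟨hX1, hX2⟩, ⟨hY1, hY2⟩, hne⟩
    rw [hf]
    rcases X with ⟨m, c⟩ | ⟨k, c⟩ <;> rcases Y with ⟨m', c'⟩ | ⟨k', c'⟩
    · rw [I_inl] at hX1 hX2 hY1 hY2
      have hmm : m ≠ m' := by
        rintro rfl
        apply hne
        have : c = c' := by linear_combination hY1 - hX1
        rw [this]
      have e1 : y - y' = m * (x - x') := by linear_combination hX1 - hX2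
      have e2 : y - y' = m' * (x - x') := by linear_combination hY1 - hY2
      have := join_uniq1 m m' (x - x') hmm (e1.symm.trans e2)
      exact ⟨this.1, by rw [e1]; exact this.2⟩
    · rw [I_inl] at hX1 hX2
      rw [I_inr] at hY1 hY2
      have e1 : y - y' = m * (x - x') := by linear_combination hX1 - hX2
      have e2 : x - x' = h k' * (y - y') := by linear_combination hY1 - hY2
      have e3 := join_uniq2 m k' (x - x') (by rw [← e1]; exact e2)
      rw [e1, e3]; simp
    · rw [I_inr] at hX1 hX2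
      rw [I_inl] at hY1 hY2
      have e1 : y - y' = m' * (x - x') := by linear_combination hY1 - hY2
      have e2 : x - x' = h k * (y - y') := by linear_combination hX1 - hX2
      have e3 := join_uniq2 m' k (x - x') (by rw [← e1]; exact e2)
      rw [e1, e3]; simp
    · rw [I_inr] at hX1 hX2 hY1 hY2
      have hmm : k ≠ k' := by
        rintro rfl
        apply hne
        have : c = c' := by linear_combination hY1 - hX1
        rw [this]
      have e1 : x - x' = h k * (y - y') := by linear_combination hX1 - hX2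
      have e2 : x - x' = h k' * (y - y') := by linear_combination hY1 - hY2
      have := join_uniq3 k k' (y - y') hmm (e1.symm.trans e2)
      exact ⟨by rw [e1]; exact this.1, this.2⟩

/-- lines of the affine plane of order 3 are determined by their points -/
theorem A_ext : ∀ L M : A.B, (∀ p, A.I p L → A.I p M) → L = M := by decide +kernel

/-- every point of the image line lifts to a point of the given block -/
theorem lift (X : J.B) (p : A.P) (hp : A.I p (g X)) : ∃ x, J.I x X ∧ f x = p := by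
  obtain ⟨a, b⟩ := p
  rcases X with ⟨m, c⟩ | ⟨k, c⟩
  · have hp' : b = π m * a + π c := hp
    refine ⟨(s a, m * s a + c), rfl, ?_⟩
    show ((π (s a), π (m * s a + c)) : K × K) = (a, b)
    rw [π_add, π_mul, π_s, hp']
  · have hp' : a = π c := hp
    refine ⟨(h k * s b + c, s b), rfl, ?_⟩
    show ((π (h k * s b + c), π (s b)) : K × K) = (a, b)
    rw [π_add, π_mul, π_s, π_h, hp', zero_mul, zero_add]

theorem sim_iff (X Y : J.B) : g X = g Y ↔ SimA J X Y := by
  constructor
  · intro hg
    constructor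
    · intro x hx
      obtain ⟨y, hy, hf⟩ := lift Y (f x) (hg ▸ epi.2.2.1 x X hx)
      exact ⟨y, hy, (join_iff x y).1 hf.symm⟩
    · intro x hx
      obtain ⟨y, hy, hf⟩ := lift X (f x) (hg ▸ epi.2.2.1 x Y hx)
      exact ⟨y, hy, (join_iff x y).1 hf.symm⟩
  · rintro ⟨h1, -⟩
    apply A_ext
    intro p hp
    obtain ⟨x, hx, hfx⟩ := lift X p hp
    obtain ⟨y, hy, hxy⟩ := h1 x hx
    rw [← hfx, (join_iff x y).2 hxy]
    exact epi.2.2.1 y Y hy

theorem ax3 (X Y : J.B) (_hne : X ≠ Y) (hs : SimA J X Y) : meetCard J X Y ≠ 1 := by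
  have hg := (sim_iff X Y).2 hs
  intro h1
  rw [meetCard, Set.encard_eq_one] at h1
  obtain ⟨⟨x, y⟩, hxy⟩ := h1
  have hmem : ((x, y) : R × R) ∈ {p : J.P | J.I p X ∧ J.I p Y} := by
    rw [hxy]; exact rfl
  obtain ⟨hX, hY⟩ := hmem
  rcases X with ⟨m, c⟩ | ⟨k, c⟩ <;> rcases Y with ⟨m', c'⟩ | ⟨k', c'⟩
  · have hg' : (π m, π c) = (π m', π c') := Sum.inl.inj hg
    have hm : 3 * (m - m') = 0 := (π_eq m m').1 (Prod.mk.inj hg').1
    rw [I_inl] at hX hY
    have hmem2 : ((x + 3, m * (x + 3) + c) : R × R) ∈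
        {p : J.P | J.I p (Sum.inl (m, c)) ∧ J.I p (Sum.inl (m', c'))} := by
      refine ⟨rfl, ?_⟩
      show m * (x + 3) + c = m' * (x + 3) + c'
      linear_combination hm + hY - hX
    rw [hxy] at hmem2
    have := (Prod.mk.inj (Set.mem_singleton_iff.1 hmem2)).1
    exact three_ne x this
  · exact absurd hg (by simp [g])
  · exact absurd hg (by simp [g])
  · rw [I_inr] at hX hY
    have hmem2 : ((h k * (y + 3) + c, y + 3) : R × R) ∈
        {p : J.P | J.I p (Sum.inr (k, c)) ∧ J.I p (Sum.inr (k', c'))} := by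
      refine ⟨rfl, ?_⟩
      show h k * (y + 3) + c = h k' * (y + 3) + c'
      linear_combination h_three k - h_three k' + hY - hX
    rw [hxy] at hmem2
    have := (Prod.mk.inj (Set.mem_singleton_iff.1 hmem2)).2
    exact three_ne y this

/-- parallelism from a class function -/
theorem ah_of_cls {C : Type} (cls : J.B → C)
    (hc : ∀ (p : J.P) (X : J.B), ∃! Y : J.B, J.I p Y ∧ cls X = cls Y) :
    IsAHPlane J (fun X Y => cls X = cls Y) := by
  refine ⟨one_le_join, ⟨⟨fun _ => rfl, fun h => h.symm, fun h1 h2 => h1.trans h2⟩, hc⟩, ax3,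
    A, f, g, A_plane, epi, join_iff, sim_iff⟩

/-- The twisted slope: in direction `0` of the quotient plane the slopes `3` and `6` are exchanged
for the blocks with `c` not divisible by `3`. -/
def tw (m c : R) : R := if 3 * m = 0 ∧ 3 * c ≠ 0 then -m else m

/-- classes of the twisted parallelism -/
def cls (X : J.B) : R ⊕ K := match X with
  | Sum.inl (m, c) => Sum.inl (tw m c)
  | Sum.inr (k, _) => Sum.inr k

/-- classes of the standard parallelism -/
def cls0 (X : J.B) : R ⊕ K := match X with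
  | Sum.inl (m, _) => Sum.inl m
  | Sum.inr (k, _) => Sum.inr k

theorem tw_ex : ∀ x y M : R, ∃ m, M = tw m (y - m * x) := by decide +kernel
theorem tw_uniq : ∀ x y m m' : R, tw m (y - m * x) = tw m' (y - m' * x) → m = m' := by
  decide +kernel

theorem cls_par (p : J.P) (X : J.B) : ∃! Y : J.B, J.I p Y ∧ cls X = cls Y := by
  obtain ⟨x, y⟩ := p
  rcases X with ⟨m, c⟩ | ⟨k, c⟩
  · obtain ⟨m', hm'⟩ := tw_ex x y (tw m c)
    refine ⟨Sum.inl (m', y - m' * x), ⟨?_, ?_⟩, ?_⟩
    · rw [I_inl]; ring
    · show (Sum.inl (tw m c) : R ⊕ K) = Sum.inl (tw m' (y - m' * x))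
      rw [← hm']
    · rintro (⟨m₂, c₂⟩ | ⟨k₂, c₂⟩) ⟨h1, h2⟩
      · rw [I_inl] at h1
        have h2' : tw m c = tw m₂ c₂ := Sum.inl.inj h2
        have hc : c₂ = y - m₂ * x := by linear_combination -h1
        rw [hc, hm'] at h2'
        have := tw_uniq x y _ _ h2'
        rw [hc, this]
      · exact absurd h2 (by simp [cls])
  · refine ⟨Sum.inr (k, x - h k * y), ⟨?_, rfl⟩, ?_⟩
    · rw [I_inr]; ring
    · rintro (⟨m₂, c₂⟩ | ⟨k₂, c₂⟩) ⟨h1, h2⟩
      · exact absurd h2 (by simp [cls])
      · rw [I_inr] at h1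
        have h2' : k = k₂ := Sum.inr.inj h2
        rw [h2']
        have hc : c₂ = x - h k₂ * y := by linear_combination -h1
        rw [hc]

theorem cls0_par (p : J.P) (X : J.B) : ∃! Y : J.B, J.I p Y ∧ cls0 X = cls0 Y := by
  obtain ⟨x, y⟩ := p
  rcases X with ⟨m, c⟩ | ⟨k, c⟩
  · refine ⟨Sum.inl (m, y - m * x), ⟨?_, rfl⟩, ?_⟩
    · rw [I_inl]; ring
    · rintro (⟨m₂, c₂⟩ | ⟨k₂, c₂⟩) ⟨h1, h2⟩
      · rw [I_inl] at h1
        have h2' : m = m₂ := Sum.inl.inj h2
        have hc : c₂ = y - m₂ * x := by linear_combination -h1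
        rw [hc, h2']
      · exact absurd h2 (by simp [cls0])
  · refine ⟨Sum.inr (k, x - h k * y), ⟨?_, rfl⟩, ?_⟩
    · rw [I_inr]; ring
    · rintro (⟨m₂, c₂⟩ | ⟨k₂, c₂⟩) ⟨h1, h2⟩
      · exact absurd h2 (by simp [cls0])
      · rw [I_inr] at h1
        have h2' : k = k₂ := Sum.inr.inj h2
        rw [h2']
        have hc : c₂ = x - h k₂ * y := by linear_combination -h1
        rw [hc]

/-- the map `(x,y) ↦ (x + a, y + b)` on points -/
def shiftP (a b : R) : Equiv.Perm J.P where
  toFun p := (p.1 + a, p.2 + b)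
  invFun p := (p.1 - a, p.2 - b)
  left_inv p := by
    obtain ⟨x, y⟩ := p
    show ((x + a - a, y + b - b) : R × R) = (x, y)
    rw [add_sub_cancel_right, add_sub_cancel_right]
  right_inv p := by
    obtain ⟨x, y⟩ := p
    show ((x - a + a, y - b + b) : R × R) = (x, y)
    rw [sub_add_cancel, sub_add_cancel]

/-- ... and on blocks -/
def shiftB (a b : R) : Equiv.Perm J.B where
  toFun X := match X with
    | Sum.inl (m, c) => Sum.inl (m, c + b - m * a)
    | Sum.inr (k, c) => Sum.inr (k, c + a - h k * b)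
  invFun X := match X with
    | Sum.inl (m, c) => Sum.inl (m, c - b + m * a)
    | Sum.inr (k, c) => Sum.inr (k, c - a + h k * b)
  left_inv X := by
    rcases X with ⟨m, c⟩ | ⟨k, c⟩
    · show (Sum.inl (m, c + b - m * a - b + m * a) : J.B) = Sum.inl (m, c)
      congr 2; ring
    · show (Sum.inr (k, c + a - h k * b - a + h k * b) : J.B) = Sum.inr (k, c)
      congr 2; ring
  right_inv X := by
    rcases X with ⟨m, c⟩ | ⟨k, c⟩
    · show (Sum.inl (m, c - b + m * a + b - m * a) : J.B) = Sum.inl (m, c)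
      congr 2; ring
    · show (Sum.inr (k, c - a + h k * b + a - h k * b) : J.B) = Sum.inr (k, c)
      congr 2; ring

/-- the automorphism `(x,y) ↦ (x + a, y + b)` -/
def shift (a b : R) : AutGroup J := ⟨(shiftP a b, shiftB a b), by
  rintro ⟨x, y⟩ (⟨m, c⟩ | ⟨k, c⟩)
  · show (y + b = m * (x + a) + (c + b - m * a)) ↔ y = m * x + c
    constructor
    · intro h1; linear_combination h1
    · intro h1; linear_combination h1
  · show (x + a = h k * (y + b) + (c + a - h k * b)) ↔ x = h k * y + c
    constructor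
    · intro h1; linear_combination h1
    · intro h1; linear_combination h1⟩

/-- the shear `(x,y) ↦ (x, y + 3x + 1)` on points -/
def shearP : Equiv.Perm J.P where
  toFun p := (p.1, p.2 + 3 * p.1 + 1)
  invFun p := (p.1, p.2 - 3 * p.1 - 1)
  left_inv p := by
    obtain ⟨x, y⟩ := p
    show ((x, y + 3 * x + 1 - 3 * x - 1) : R × R) = (x, y)
    congr 1; ring
  right_inv p := by
    obtain ⟨x, y⟩ := p
    show ((x, y - 3 * x - 1 + 3 * x + 1) : R × R) = (x, y)
    congr 1; ring

/-- the shear on blocks: `y = m x + c` goes to `y = (m+3) x + c + 1` and `x = h(k) y + c` goes to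
`x = h(k) y + c - h(k)` (as `h(k) · 3 = 0`) -/
def shearB : Equiv.Perm J.B where
  toFun X := match X with
    | Sum.inl (m, c) => Sum.inl (m + 3, c + 1)
    | Sum.inr (k, c) => Sum.inr (k, c - h k)
  invFun X := match X with
    | Sum.inl (m, c) => Sum.inl (m - 3, c - 1)
    | Sum.inr (k, c) => Sum.inr (k, c + h k)
  left_inv X := by
    rcases X with ⟨m, c⟩ | ⟨k, c⟩
    · show (Sum.inl (m + 3 - 3, c + 1 - 1) : J.B) = Sum.inl (m, c)
      congr 2 <;> ring
    · show (Sum.inr (k, c - h k + h k) : J.B) = Sum.inr (k, c)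
      congr 2; ring
  right_inv X := by
    rcases X with ⟨m, c⟩ | ⟨k, c⟩
    · show (Sum.inl (m - 3 + 3, c - 1 + 1) : J.B) = Sum.inl (m, c)
      congr 2 <;> ring
    · show (Sum.inr (k, c + h k - h k) : J.B) = Sum.inr (k, c)
      congr 2; ring

def shear : AutGroup J := ⟨(shearP, shearB), by
  rintro ⟨x, y⟩ (⟨m, c⟩ | ⟨k, c⟩)
  · show (y + 3 * x + 1 = (m + 3) * x + (c + 1)) ↔ y = m * x + c
    constructor
    · intro h1; linear_combination h1
    · intro h1; linear_combination h1
  · show (x = h k * (y + 3 * x + 1) + (c - h k)) ↔ x = h k * y + c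
    constructor
    · intro h1; linear_combination h1 + x * h_three k
    · intro h1; linear_combination h1 - x * h_three k⟩

theorem h_zero_cls : ∀ k : K, (0 : K) = k → h k = 0 := by decide +kernel

/-- an automorphism with these properties is fixed-point-free -/
theorem shift_fpf (a b : R) (hab : a ≠ 0 ∨ b ≠ 0) (p : J.P) : (shift a b).1.1 p ≠ p := by
  obtain ⟨x, y⟩ := p
  intro hp
  have hp' : ((x + a, y + b) : R × R) = (x, y) := hp
  obtain ⟨h1, h2⟩ := Prod.mk.inj hp'
  rcases hab with ha | hb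
  · exact ha (by linear_combination h1)
  · exact hb (by linear_combination h2)

theorem tw_inv1 : ∀ m c : R, tw m (c + 0 - m * 1) = tw m c := by decide +kernel
theorem tw_inv2 : ∀ m c : R, tw m (c + 3 - m * 0) = tw m c := by decide +kernel
theorem tw_zero : ∀ m c : R, tw 0 0 = tw m c → m = 0 := by decide +kernel

/-- `τ : (x,y) ↦ (x+1,y)` is a translation for the twisted parallelism -/
theorem tau_mem : shift 1 0 ∈ Translations J (fun X Y => cls X = cls Y) := by
  refine ⟨⟨Sum.inl (0, 0), ?_⟩, Or.inr (shift_fpf 1 0 (Or.inl (by decide)))⟩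
  rintro (⟨m, c⟩ | ⟨k, c⟩) hY
  · have hm : m = 0 := tw_zero m c (Sum.inl.inj hY)
    show (Sum.inl (m, c + 0 - m * 1) : J.B) = Sum.inl (m, c)
    rw [hm]; congr 2; ring
  · exact absurd hY (by simp [cls])

/-- `σ : (x,y) ↦ (x,y+3)` is a translation for the twisted parallelism -/
theorem sigma_mem : shift 0 3 ∈ Translations J (fun X Y => cls X = cls Y) := by
  refine ⟨⟨Sum.inr (0, 0), ?_⟩, Or.inr (shift_fpf 0 3 (Or.inr (by decide)))⟩
  rintro (⟨m, c⟩ | ⟨k, c⟩) hY
  · exact absurd hY (by simp [cls])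
  · have hk : h k = 0 := h_zero_cls k (Sum.inr.inj hY)
    show (Sum.inr (k, c + 0 - h k * 3) : J.B) = Sum.inr (k, c)
    rw [hk]; congr 2; ring

theorem tau_dil : shift 1 0 ∈ Dilatations J (fun X Y => cls X = cls Y) := by
  rintro (⟨m, c⟩ | ⟨k, c⟩)
  · show (Sum.inl (tw m c) : R ⊕ K) = Sum.inl (tw m (c + 0 - m * 1))
    rw [tw_inv1]
  · rfl

theorem sigma_dil : shift 0 3 ∈ Dilatations J (fun X Y => cls X = cls Y) := by
  rintro (⟨m, c⟩ | ⟨k, c⟩)
  · show (Sum.inl (tw m c) : R ⊕ K) = Sum.inl (tw m (c + 3 - m * 0))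
    rw [tw_inv2]
  · rfl

theorem no_slope : ∀ m c : R, ∃ m' c' : R, tw m c = tw m' c' ∧ c' ≠ c' - m' * 1 + 3 := by
  decide +kernel

/-- the product moves a block in every parallel class -/
theorem prod_not_mem : shift 0 3 * shift 1 0 ∉ Translations J (fun X Y => cls X = cls Y) := by
  rintro ⟨⟨X, hX⟩, -⟩
  rcases X with ⟨m, c⟩ | ⟨k, c⟩
  · obtain ⟨m', c', h1, h2⟩ := no_slope m c
    have h3 := hX (Sum.inl (m', c')) (by show (Sum.inl (tw m c) : R ⊕ K) = Sum.inl (tw m' c'); rw [h1])
    have h4 : (Sum.inl (m', c' + 0 - m' * 1 + 3 - m' * 0) : J.B) = Sum.inl (m', c') := h3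
    have h5 := (Prod.mk.inj (Sum.inl.inj h4)).2
    exact h2 (by linear_combination -h5)
  · have h3 := hX (Sum.inr (k, c)) rfl
    have h4 : (Sum.inr (k, c + 1 - h k * 0 + 0 - h k * 3) : J.B) = Sum.inr (k, c) := h3
    have h5 := (Prod.mk.inj (Sum.inr.inj h4)).2
    have h6 : (1 : R) = 0 := by linear_combination h5 + h_three k
    exact absurd h6 (by decide)

theorem three_mul_ne : ∀ x : R, 3 * x + 1 ≠ 0 := by decide +kernel

/-- for the standard parallelism, the shear is a translation in the sense of the file -/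
theorem shear_mem : shear ∈ Translations J (fun X Y => cls0 X = cls0 Y) := by
  refine ⟨⟨Sum.inr (0, 0), ?_⟩, Or.inr ?_⟩
  · rintro (⟨m, c⟩ | ⟨k, c⟩) hY
    · exact absurd hY (by simp [cls0])
    · have hk : h k = 0 := h_zero_cls k (Sum.inr.inj hY)
      show (Sum.inr (k, c - h k) : J.B) = Sum.inr (k, c)
      rw [hk]; congr 2; ring
  · rintro ⟨x, y⟩ hp
    have hp' : ((x, y + 3 * x + 1) : R × R) = (x, y) := hp
    have h2 := (Prod.mk.inj hp').2
    have h3 : 3 * x + 1 = 0 := by linear_combination h2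
    exact three_mul_ne x h3

theorem down_mem : shift 0 (-1) ∈ Translations J (fun X Y => cls0 X = cls0 Y) := by
  refine ⟨⟨Sum.inr (0, 0), ?_⟩, Or.inr (shift_fpf 0 (-1) (Or.inr (by decide)))⟩
  rintro (⟨m, c⟩ | ⟨k, c⟩) hY
  · exact absurd hY (by simp [cls0])
  · have hk : h k = 0 := h_zero_cls k (Sum.inr.inj hY)
    show (Sum.inr (k, c + 0 - h k * (-1)) : J.B) = Sum.inr (k, c)
    rw [hk]; congr 2; ring

/-- **Theorem.**  The translations of an affine Hjelmslev plane need not form a group.
There is a finite incidence structure `J` (81 points, 108 blocks) such that: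

(1) for some parallelism `par`, `(J, par)` is an affine Hjelmslev plane having translations
`σ, τ` which are moreover dilatations (every block is mapped to a parallel block), such that `στ`
is not a translation; so the set of translations is not a subgroup of the automorphism group;

(2) for another parallelism `par₀`, `(J, par₀)` is an affine Hjelmslev plane having
translations `σ, τ` whose composite fixes a point and is not the identity. -/
theorem result :
    ∃ J : IncStr, Finite J.P ∧ Finite J.B ∧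
      (∃ par : J.B → J.B → Prop, IsAHPlane J par ∧ DilProductFails J par ∧
        ¬ TranslationsGroup J par) ∧
      (∃ par₀ : J.B → J.B → Prop, IsAHPlane J par₀ ∧ FixProductFails J par₀ ∧
        ¬ TranslationsGroup J par₀) := by
  have key : ∀ (par : J.B → J.B → Prop) (σ τ : AutGroup J), σ ∈ Translations J par →
      τ ∈ Translations J par → σ * τ ∉ Translations J par → ¬ TranslationsGroup J par := by
    rintro par σ τ hσ hτ hn ⟨H, hH⟩
    rw [← hH] at hσ hτ hn
    exact hn (H.mul_mem hσ hτ)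
  have h1 : (shift 0 (-1) * shear) ≠ (1 : AutGroup J) := by
    intro he
    have h2 : (shift 0 (-1) * shear).1.1 ((1, 0) : R × R) = ((1, 0) : R × R) := by rw [he]; rfl
    have h3 : ((1 + 0, 0 + 3 * 1 + 1 + -1) : R × R) = (1, 0) := h2
    exact absurd (Prod.mk.inj h3).2 (by decide)
  have h0 : (shift 0 (-1) * shear).1.1 ((0, 0) : R × R) = ((0, 0) : R × R) := by
    show ((0 + 0, 0 + 3 * 0 + 1 + -1) : R × R) = (0, 0)
    simp
  have h2 : (shift 0 (-1) * shear) ∉ Translations J (fun X Y => cls0 X = cls0 Y) := by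
    rintro ⟨-, h | h⟩
    · exact h1 h
    · exact h _ h0
  refine ⟨J, inferInstanceAs (Finite (R × R)), inferInstanceAs (Finite ((R × R) ⊕ (K × R))),
    ⟨_, ah_of_cls cls cls_par, ⟨_, _, sigma_mem, tau_mem, sigma_dil, tau_dil, prod_not_mem⟩,
      key _ _ _ sigma_mem tau_mem prod_not_mem⟩,
    ⟨_, ah_of_cls cls0 cls0_par, ⟨_, _, down_mem, shear_mem, h1, ⟨_, h0⟩⟩,
      key _ _ _ down_mem shear_mem h2⟩⟩

end Pool.Agent.Results.MP_43980c_co.NotGroup
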